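import Mathlib

/-!
# Magnus hierarchy: actions on free groups, letters

`fga`: a group acting on a set `Z` acts on the free group of `Z`. `kl c`: the endomorphism of a free group which
kills the letter `c`.
-/

set_option autoImplicit false

open scoped Classical

namespace Pool.Agent.Lib.MagH

/-- the automorphisms of a free group given by an action on the letters -/
def fga (Q Z : Type) [Group Q] [MulAction Q Z] : Q →* MulAut (FreeGroup Z) where
  toFun g := FreeGroup.freeGroupCongr (MulAction.toPerm g)
  map_one' := by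
    ext w
    have h : (FreeGroup.freeGroupCongr (MulAction.toPerm (1 : Q)) :
        FreeGroup Z ≃* FreeGroup Z).toMonoidHom = MonoidHom.id _ :=
      FreeGroup.ext_hom _ _ fun z => by simp
    exact DFunLike.congr_fun h w
  map_mul' a b := by
    ext w
    have h : (FreeGroup.freeGroupCongr (MulAction.toPerm (a * b)) :
        FreeGroup Z ≃* FreeGroup Z).toMonoidHom =
        (FreeGroup.freeGroupCongr (MulAction.toPerm a)).toMonoidHom.comp
          (FreeGroup.freeGroupCongr (MulAction.toPerm b)).toMonoidHom :=
      FreeGroup.ext_hom _ _ fun z => by simp [mul_smul]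
    exact DFunLike.congr_fun h w

theorem fga_of {Q Z : Type} [Group Q] [MulAction Q Z] (g : Q) (z : Z) :
    fga Q Z g (FreeGroup.of z) = FreeGroup.of (g • z) := by
  simp [fga]

/-- kill the letter `c` -/
noncomputable def kl {X : Type} (c : X) : FreeGroup X →* FreeGroup X :=
  FreeGroup.lift fun x => if x = c then 1 else FreeGroup.of x

theorem kl_self {X : Type} (c : X) : kl c (FreeGroup.of c) = 1 := by simp [kl]

theorem kl_of {X : Type} {c x : X} (h : x ≠ c) : kl c (FreeGroup.of x) = FreeGroup.of x := by
  simp [kl, h]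

theorem kl_kl {X : Type} (c : X) (w : FreeGroup X) : kl c (kl c w) = kl c w := by
  have h : (kl c).comp (kl c) = kl c := FreeGroup.ext_hom _ _ fun x => by
    by_cases hx : x = c
    · subst hx
      rw [MonoidHom.comp_apply, kl_self, map_one]
    · rw [MonoidHom.comp_apply, kl_of hx, kl_of hx]
  exact DFunLike.congr_fun h w

theorem kl_map {X Y : Type} (f : X → Y) (hf : Function.Injective f) (c : X) (w : FreeGroup X) :
    kl (f c) (FreeGroup.map f w) = FreeGroup.map f (kl c w) := by
  have h : (kl (f c)).comp (FreeGroup.map f) = (FreeGroup.map f).comp (kl c) :=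
    FreeGroup.ext_hom _ _ fun x => by
      by_cases hx : x = c
      · subst hx
        rw [MonoidHom.comp_apply, MonoidHom.comp_apply, FreeGroup.map.of, kl_self, kl_self, map_one]
      · rw [MonoidHom.comp_apply, MonoidHom.comp_apply, FreeGroup.map.of, kl_of hx,
          kl_of (hf.ne hx), FreeGroup.map.of]
  exact DFunLike.congr_fun h w

/-- words in the letters different from `c` -/
theorem kl_map_val {X : Type} (c : X) (w : FreeGroup {x : X // x ≠ c}) :
    kl c (FreeGroup.map Subtype.val w) = FreeGroup.map Subtype.val w := by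
  have h : (kl c).comp (FreeGroup.map (Subtype.val : {x : X // x ≠ c} → X)) =
      FreeGroup.map Subtype.val :=
    FreeGroup.ext_hom _ _ fun x => by
      rw [MonoidHom.comp_apply, FreeGroup.map.of, kl_of x.2]
  exact DFunLike.congr_fun h w

theorem map_injective {X Y : Type} (f : X → Y) (hf : Function.Injective f) :
    Function.Injective (FreeGroup.map f) := by
  intro a b hab
  by_cases hX : Nonempty X
  · obtain ⟨g, hg⟩ := hf.hasLeftInverse
    have h : (FreeGroup.map g).comp (FreeGroup.map f) = MonoidHom.id _ :=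
      FreeGroup.ext_hom _ _ fun x => by
        rw [MonoidHom.comp_apply, FreeGroup.map.of, FreeGroup.map.of, hg x, MonoidHom.id_apply]
    have h1 := DFunLike.congr_fun h a
    have h2 := DFunLike.congr_fun h b
    rw [MonoidHom.comp_apply, MonoidHom.id_apply] at h1 h2
    rw [← h1, ← h2, hab]
  · rw [not_nonempty_iff] at hX
    exact Subsingleton.elim _ _

/-! ### lengths -/

/-- the number of letters of a list different from `c` -/
noncomputable def nl {X : Type} (c : X) (L : List (X × Bool)) : ℕ :=
  (L.filter fun s => s.1 ≠ c).length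

theorem nl_nil {X : Type} (c : X) : nl c [] = 0 := by simp [nl]

theorem nl_cons {X : Type} (c : X) (s : X × Bool) (L : List (X × Bool)) :
    nl c (s :: L) = (if s.1 = c then 0 else 1) + nl c L := by
  by_cases h : s.1 = c
  · simp [nl, h]
  · simp [nl, h]; omega

theorem nl_le {X : Type} (c : X) (L : List (X × Bool)) : nl c L ≤ L.length :=
  List.length_filter_le _ _

theorem nl_lt {X : Type} (c : X) (L : List (X × Bool)) (h : ∃ s ∈ L, s.1 = c) :
    nl c L < L.length := by
  induction L with
  | nil => simp at h
  | cons s L ih =>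
    rw [nl_cons, List.length_cons]
    by_cases hs : s.1 = c
    · rw [if_pos hs]
      have := nl_le c L
      omega
    · rw [if_neg hs]
      obtain ⟨s', hs', hc⟩ := h
      rcases List.mem_cons.1 hs' with rfl | h'
      · exact absurd hc hs
      · have := ih ⟨s', h', hc⟩
        omega

theorem mk_cons {X : Type} (s : X × Bool) (L : List (X × Bool)) :
    FreeGroup.mk (s :: L) = FreeGroup.mk [s] * FreeGroup.mk L := by
  rw [FreeGroup.mul_mk]; rfl

/-- the length of the reduced word (with the classical decidable equality) -/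
noncomputable def nm {X : Type} (w : FreeGroup X) : ℕ := @FreeGroup.norm X (Classical.decEq X) w

/-- the reduced word (with the classical decidable equality) -/
noncomputable def wd {X : Type} (w : FreeGroup X) : List (X × Bool) :=
  @FreeGroup.toWord X (Classical.decEq X) w

/-- the letter `c` occurs in the reduced word of `w` -/
def Occ {X : Type} (c : X) (w : FreeGroup X) : Prop := ∃ s ∈ wd w, s.1 = c

theorem mk_wd {X : Type} (w : FreeGroup X) : FreeGroup.mk (wd w) = w :=
  @FreeGroup.mk_toWord X (Classical.decEq X) w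

theorem nm_eq {X : Type} (w : FreeGroup X) : nm w = (wd w).length := rfl

theorem nm_one {X : Type} : nm (1 : FreeGroup X) = 0 := @FreeGroup.norm_one X (Classical.decEq X)

theorem nm_of {X : Type} (x : X) : nm (FreeGroup.of x) = 1 :=
  @FreeGroup.norm_of X (Classical.decEq X) x

theorem nm_inv {X : Type} (w : FreeGroup X) : nm w⁻¹ = nm w :=
  @FreeGroup.norm_inv_eq X (Classical.decEq X) w

theorem nm_mul_le {X : Type} (u v : FreeGroup X) : nm (u * v) ≤ nm u + nm v :=
  @FreeGroup.norm_mul_le X (Classical.decEq X) u v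

theorem nm_eq_zero {X : Type} {w : FreeGroup X} : nm w = 0 ↔ w = 1 :=
  @FreeGroup.norm_eq_zero X (Classical.decEq X) w

/-- a homomorphism which maps letters to elements of length at most one -/
theorem nm_hom_le {X Y : Type} (f : FreeGroup X →* FreeGroup Y)
    (hf : ∀ x, nm (f (FreeGroup.of x)) ≤ 1) (w : FreeGroup X) : nm (f w) ≤ nm w := by
  have key : ∀ L : List (X × Bool), nm (f (FreeGroup.mk L)) ≤ L.length := by
    intro L
    induction L with
    | nil => rw [← FreeGroup.one_eq_mk, map_one, nm_one]; exact Nat.zero_le _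
    | cons s L ih =>
      rw [mk_cons, map_mul]
      refine (nm_mul_le _ _).trans ?_
      rw [List.length_cons]
      have h1 : nm (f (FreeGroup.mk [s])) ≤ 1 := by
        obtain ⟨x, b⟩ := s
        cases b with
        | true => exact hf x
        | false =>
          have h2 : FreeGroup.mk [(x, false)] = (FreeGroup.of x)⁻¹ := rfl
          rw [h2, map_inv, nm_inv]
          exact hf x
      omega
  have h := key (wd w)
  rw [mk_wd] at h
  exact h

/-- a map which is submultiplicative for lengths, `0` on the letter `c`, at most `1` on the other letters -/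
theorem le_nl {X : Type} (c : X) (N : FreeGroup X → ℕ) (h1 : N 1 = 0)
    (hm : ∀ u v, N (u * v) ≤ N u + N v) (hc : N (FreeGroup.of c) = 0)
    (hc' : N (FreeGroup.of c)⁻¹ = 0) (hx : ∀ x, N (FreeGroup.of x) ≤ 1)
    (hx' : ∀ x, N (FreeGroup.of x)⁻¹ ≤ 1) (w : FreeGroup X) : N w ≤ nl c (wd w) := by
  have key : ∀ L : List (X × Bool), N (FreeGroup.mk L) ≤ nl c L := by
    intro L
    induction L with
    | nil => rw [← FreeGroup.one_eq_mk, h1]; exact Nat.zero_le _
    | cons s L ih =>
      rw [mk_cons]
      refine (hm _ _).trans ?_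
      rw [nl_cons]
      have h3 : N (FreeGroup.mk [s]) ≤ if s.1 = c then 0 else 1 := by
        obtain ⟨x, b⟩ := s
        cases b with
        | true =>
          have h2 : FreeGroup.mk [(x, true)] = FreeGroup.of x := rfl
          rw [h2]
          by_cases h : x = c
          · subst h; rw [if_pos rfl, hc]
          · rw [if_neg h]; exact hx x
        | false =>
          have h2 : FreeGroup.mk [(x, false)] = (FreeGroup.of x)⁻¹ := rfl
          rw [h2]
          by_cases h : x = c
          · subst h; rw [if_pos rfl, hc']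
          · rw [if_neg h]; exact hx' x
      omega
  have h := key (wd w)
  rw [mk_wd] at h
  exact h

theorem nm_kl_le {X : Type} (c : X) (w : FreeGroup X) : nm (kl c w) ≤ nl c (wd w) := by
  have h : ∀ x, nm (kl c (FreeGroup.of x)) ≤ 1 := by
    intro x
    by_cases hx : x = c
    · rw [hx, kl_self, nm_one]; exact Nat.zero_le _
    · rw [kl_of hx, nm_of]
  refine le_nl c (fun w => nm (kl c w)) ?_ (fun u v => ?_) ?_ ?_ h (fun x => ?_) w
  · show nm (kl c 1) = 0
    rw [map_one, nm_one]
  · show nm (kl c (u * v)) ≤ _
    rw [map_mul]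
    exact nm_mul_le _ _
  · show nm (kl c (FreeGroup.of c)) = 0
    rw [kl_self, nm_one]
  · show nm (kl c (FreeGroup.of c)⁻¹) = 0
    rw [map_inv, kl_self, inv_one, nm_one]
  · show nm (kl c (FreeGroup.of x)⁻¹) ≤ 1
    rw [map_inv, nm_inv]
    exact h x

/-- the elements of minimal length in their conjugacy class -/
def Mn {X : Type} (r : FreeGroup X) : Prop := ∀ g : FreeGroup X, nm r ≤ nm (g * r * g⁻¹)

theorem exists_mn {X : Type} (r : FreeGroup X) : ∃ g : FreeGroup X, Mn (g * r * g⁻¹) ∧
    nm (g * r * g⁻¹) ≤ nm r := by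
  have h : ∃ n : ℕ, ∃ g : FreeGroup X, nm (g * r * g⁻¹) = n := ⟨_, 1, rfl⟩
  obtain ⟨g, hg⟩ := Nat.find_spec h
  refine ⟨g, fun g' => ?_, ?_⟩
  · rw [hg]
    exact Nat.find_min' h ⟨g' * g, by group⟩
  · rw [hg]
    exact Nat.find_min' h ⟨1, by group⟩

/-- an element of minimal length is not conjugate to a word without a letter which occurs in it -/
theorem mn_not_conj {X : Type} {r : FreeGroup X} (h : Mn r) (c : X)
    (hc : Occ c r) (g : FreeGroup X) : kl c (g * r * g⁻¹) ≠ g * r * g⁻¹ := by
  intro h1
  have h2 : kl c r = ((kl c g)⁻¹ * g) * r * ((kl c g)⁻¹ * g)⁻¹ := by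
    have h3 : kl c r = (kl c g)⁻¹ * kl c (g * r * g⁻¹) * kl c g := by
      rw [map_mul, map_mul, map_inv]; group
    rw [h3, h1]; group
  have h4 := h ((kl c g)⁻¹ * g)
  rw [← h2] at h4
  have h5 := nm_kl_le c r
  have h6 := nl_lt c (wd r) hc
  have h7 := nm_eq r
  omega

/-- the letter `c` does not occur -/
theorem kl_of_not_occ {X : Type} {c : X} {w : FreeGroup X} (h : ¬ Occ c w) : kl c w = w := by
  have key : ∀ L : List (X × Bool), (∀ s ∈ L, s.1 ≠ c) → kl c (FreeGroup.mk L) = FreeGroup.mk L := by
    intro L
    induction L with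
    | nil => intro _; rw [← FreeGroup.one_eq_mk, map_one]
    | cons s L ih =>
      intro hL
      rw [mk_cons, map_mul, ih fun s hs => hL s (List.mem_cons_of_mem _ hs)]
      congr 1
      obtain ⟨x, b⟩ := s
      have hx : x ≠ c := hL (x, b) List.mem_cons_self
      cases b with
      | true => exact kl_of hx
      | false =>
        have h2 : FreeGroup.mk [(x, false)] = (FreeGroup.of x)⁻¹ := rfl
        rw [h2, map_inv, kl_of hx]
  have h1 := key (wd w) fun s hs hc => h ⟨s, hs, hc⟩
  rw [mk_wd] at h1
  exact h1

theorem exists_occ {X : Type} {w : FreeGroup X} (h : w ≠ 1) : ∃ c, Occ c w := by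
  have h1 : wd w ≠ [] := by
    intro h2
    apply h
    rw [← mk_wd w, h2, ← FreeGroup.one_eq_mk]
  obtain ⟨s, hs⟩ := List.exists_mem_of_ne_nil _ h1
  exact ⟨s.1, s, hs, rfl⟩

theorem occ_finite {X : Type} (w : FreeGroup X) : {c | Occ c w}.Finite := by
  refine (((wd w).map Prod.fst).toFinset.finite_toSet).subset ?_
  rintro c ⟨s, hs, rfl⟩
  rw [Finset.mem_coe, List.mem_toFinset]
  exact List.mem_map_of_mem hs

/-- a word in the letters which satisfy `P` -/
theorem exists_map_val {X : Type} (P : X → Prop) (w : FreeGroup X) (h : ∀ c, Occ c w → P c) :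
    ∃ u : FreeGroup {x : X // P x}, FreeGroup.map Subtype.val u = w ∧ nm u ≤ nm w := by
  have key : ∀ L : List (X × Bool), (∀ s ∈ L, P s.1) → ∃ u : FreeGroup {x : X // P x},
      FreeGroup.map Subtype.val u = FreeGroup.mk L ∧ nm u ≤ L.length := by
    intro L
    induction L with
    | nil =>
      intro _
      exact ⟨1, by rw [map_one, FreeGroup.one_eq_mk], by rw [nm_one]; exact Nat.zero_le _⟩
    | cons s L ih =>
      intro hL
      obtain ⟨u, hu1, hu2⟩ := ih fun s hs => hL s (List.mem_cons_of_mem _ hs)
      obtain ⟨x, b⟩ := s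
      have hx : P x := hL (x, b) List.mem_cons_self
      rw [mk_cons, ← hu1, List.length_cons]
      cases b with
      | true =>
        refine ⟨FreeGroup.of ⟨x, hx⟩ * u, ?_, ?_⟩
        · rw [map_mul, FreeGroup.map.of]; rfl
        · have := nm_mul_le (FreeGroup.of (⟨x, hx⟩ : {x : X // P x})) u
          rw [nm_of] at this
          omega
      | false =>
        refine ⟨(FreeGroup.of ⟨x, hx⟩)⁻¹ * u, ?_, ?_⟩
        · rw [map_mul, map_inv, FreeGroup.map.of]; rfl
        · have := nm_mul_le (FreeGroup.of (⟨x, hx⟩ : {x : X // P x}))⁻¹ u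
          rw [nm_inv, nm_of] at this
          omega
  obtain ⟨u, hu1, hu2⟩ := key (wd w) fun s hs => h s.1 ⟨s, hs, rfl⟩
  rw [mk_wd] at hu1
  exact ⟨u, hu1, hu2⟩

end Pool.Agent.Lib.MagH
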