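import Pool.Agent.Lib.MagH.Root
import Pool.Agent.Lib.MagH.Tree
import Pool.Agent.Lib.LTree.FT

/-!
# Magnus hierarchy: the Freiheitssatz

PROOF. `w ≠ 1` is assumed; `r ≠ 1` (else `w ∈ ⊥`). `exists_root`: `r = v ^ q`, `NPow v`; `normalClosure {r} ≤ normalClosure {v}`; `v` satisfies `h` too (a power of an element
of `{w | kl c w = w}` is in it). Let `F = FreeGroup X`, `Hc = {w | kl c w = w}` (a subgroup: `MonoidHom.eqLocus (kl c) (MonoidHom.id _)`). TREE `T : GTree F`: `V = F ⧸ Hc`, `E = F` (left
multiplication), `o g = g Hc`, `t g = g (of c) Hc`. `conn`: the `a` such that `b Hc` and `b a Hc` are equivalent for all `b` form a subgroup which contains `of x` (`x ≠ c`: `of x ∈ Hc`; `x = c`: the edge `b`).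
`pot`: the action of `F` on itself by left multiplication gives `fga F F : F →* MulAut (FreeGroup F)`; let `χ : F →* FreeGroup F ⋊[fga F F] F`, `χ (of x) = inr (of x)` for `x ≠ c`,
`χ (of c) = inl (of 1) * inr (of c)`. `(χ g).right = g`; `χ (kl c g) = inr (kl c g)` (both sides are homomorphisms of `g`), so `(χ h).left = 1` for `h ∈ Hc`; `(χ (g * h)).left = (χ g).left * g • (χ h).left`.
So `μ (g Hc) = (χ g).left` is well defined and `μ (g (of c) Hc) = μ (g Hc) * of g`. `T.Has ⊥` clear. `T.Ell v`: `v g Hc = g Hc`, so `g⁻¹ v g ∈ Hc`, contradiction to `h` for `v`.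
`LTree.ft (LI_free X) T _ v _ _` with the vertex `1 Hc` and `g = w` gives `w = 1`. (Compare `Pool/Agent/Lib/LTree/BS.lean`.)
-/

set_option autoImplicit false

open scoped Classical

namespace Pool.Agent.Lib.MagH

open Pool.Agent.LTree (NPow GTree)
open Pool.Agent.LOTI (LI LI_free)

/-- the inclusion of the free group on the letters different from `x` -/
def omt {X : Type} (x : X) : FreeGroup {y : X // y ≠ x} →* FreeGroup X := FreeGroup.map Subtype.val

theorem freeSplit_omt {X : Type} (x : X) :
    FreeSplit (omt x) (fun _ : Unit => FreeGroup.of x) where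
  gen H h1 h2 := by
    rw [eq_top_iff, ← FreeGroup.closure_range_of, Subgroup.closure_le]
    rintro _ ⟨y, rfl⟩
    by_cases hy : y = x
    · subst hy
      exact h2 ()
    · have h3 := h1 (FreeGroup.of ⟨y, hy⟩)
      rwa [omt, FreeGroup.map.of] at h3
  univ Y _ f u := by
    let F : FreeGroup X →* Y :=
      FreeGroup.lift (fun y => if hy : y = x then u () else f (FreeGroup.of ⟨y, hy⟩))
    refine ⟨F, fun p => ?_, fun i => ?_⟩
    · have h1 : F.comp (omt x) = f := by
        refine FreeGroup.ext_hom _ _ fun y => ?_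
        show F (omt x (FreeGroup.of y)) = _
        rw [omt, FreeGroup.map.of, FreeGroup.lift_apply_of, dif_neg y.2]
      exact DFunLike.congr_fun h1 p
    · show F (FreeGroup.of x) = u i
      rw [FreeGroup.lift_apply_of, dif_pos rfl]

/-- the words which are fixed by `kl x` are the words without the letter `x` -/
theorem exists_omt {X : Type} (x : X) (w : FreeGroup X) (hw : kl x w = w) :
    ∃ p, omt x p = w := by
  let ρ : FreeGroup X →* FreeGroup {y : X // y ≠ x} :=
    FreeGroup.lift (fun y => if hy : y = x then 1 else FreeGroup.of ⟨y, hy⟩)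
  refine ⟨ρ w, ?_⟩
  have h1 : (omt x).comp ρ = kl x := by
    refine FreeGroup.ext_hom _ _ fun y => ?_
    show omt x (ρ (FreeGroup.of y)) = kl x (FreeGroup.of y)
    by_cases hy : y = x
    · rw [FreeGroup.lift_apply_of, dif_pos hy, map_one, hy, kl_self]
    · rw [FreeGroup.lift_apply_of, dif_neg hy, kl_of hy, omt, FreeGroup.map.of]
  have h2 := DFunLike.congr_fun h1 w
  rw [hw] at h2
  exact h2

/-- **Freiheitssatz**: if `r` is not conjugate to a word without the letter `c`, then no nontrivial word without
the letter `c` is in the normal closure of `r`. -/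
theorem frei {X : Type} (r : FreeGroup X) (c : X)
    (h : ∀ g : FreeGroup X, kl c (g * r * g⁻¹) ≠ g * r * g⁻¹) (w : FreeGroup X) (hw : kl c w = w)
    (hr : w ∈ Subgroup.normalClosure ({r} : Set (FreeGroup X))) : w = 1 := by
  have hr1 : r ≠ 1 := by
    intro h1
    refine h 1 ?_
    rw [h1, one_mul, one_mul, inv_one, map_one]
  obtain ⟨s, q, hq, hs, hn⟩ := exists_root r hr1
  obtain ⟨T, hT, h1, v₀, h2⟩ := Pool.Agent.Lib.MagH.split_tree (freeSplit_omt c)
  have hell : ¬ T.Ell s := by
    rintro ⟨v, hv⟩
    have h3 : r • v = v := by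
      rw [hs]
      clear hs
      induction q with
      | zero => omega
      | succ k ih =>
        rcases Nat.eq_zero_or_pos k with rfl | hk
        · rw [zero_add, pow_one]
          exact hv
        · rw [pow_succ, mul_smul, hv]
          exact ih hk
    obtain ⟨g, p, h4⟩ := h1 v r h3
    refine h g⁻¹ ?_
    have h5 : g⁻¹ * r * g⁻¹⁻¹ = omt c p := by
      rw [h4]
      group
    rw [h5]
    exact kl_map_val c p
  have h5 := (Pool.Agent.LTree.ft (LI_free X) T hT s hell hn).2
  have h7 : Subgroup.normalClosure ({r} : Set (FreeGroup X)) ≤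
      Subgroup.normalClosure ({s} : Set (FreeGroup X)) := by
    rw [← Subgroup.normalClosure_subset_iff]
    intro z hz
    have hz' : z = s ^ q := (show z = r from hz).trans hs
    show z ∈ Subgroup.normalClosure ({s} : Set (FreeGroup X))
    rw [hz']
    have h9 : s ∈ Subgroup.normalClosure ({s} : Set (FreeGroup X)) :=
      Subgroup.subset_normalClosure (Set.mem_singleton s)
    exact Subgroup.pow_mem _ h9 q
  obtain ⟨p, hp⟩ := exists_omt c w hw
  rw [← hp]
  refine h5 v₀ (omt c p) (h2 p) (h7 ?_)
  rw [hp]
  exact hr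

end Pool.Agent.Lib.MagH
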