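import Pool.Agent.Lib.MagH.Act
import Pool.Agent.Lib.LTree.Defs

/-!
# Magnus hierarchy: roots in free groups
-/

set_option autoImplicit false

open scoped Classical

namespace Pool.Agent.Lib.MagH

open Pool.Agent.LTree (NPow)
open FreeGroup

theorem le_norm_pow {X : Type} (v : FreeGroup X) (hv : v ≠ 1) (n : ℕ) : n ≤ (v ^ n).norm := by
  cases n with
  | zero => exact Nat.zero_le _
  | succ n =>
    have h1 : (v ^ (n + 1)).toWord = reduceCyclically.conjugator v.toWord ++
        (List.replicate (n + 1) (reduceCyclically v.toWord)).flatten ++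
        invRev (reduceCyclically.conjugator v.toWord) := by
      rw [toWord_pow, reduceCyclically.reduce_flatten_replicate_succ isReduced_toWord]
    have h2 : reduceCyclically v.toWord ≠ [] := by
      intro h
      have h3 := reduceCyclically.conj_conjugator_reduceCyclically v.toWord
      rw [h, List.append_nil] at h3
      apply hv
      have h4 : v = mk (reduceCyclically.conjugator v.toWord ++
          invRev (reduceCyclically.conjugator v.toWord)) := by rw [h3, mk_toWord]
      rw [h4, ← mul_mk, ← inv_mk, mul_inv_cancel]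
    have h5 : 1 ≤ (reduceCyclically v.toWord).length := List.length_pos_iff.2 h2
    unfold FreeGroup.norm
    rw [h1]
    simp only [List.length_append, List.length_flatten, List.map_replicate, List.sum_replicate,
      smul_eq_mul]
    nlinarith

theorem exists_root {X : Type} (r : FreeGroup X) (hr : r ≠ 1) :
    ∃ (v : FreeGroup X) (q : ℕ), 1 ≤ q ∧ r = v ^ q ∧ NPow v := by
  have hex : ∃ q, ∃ v : FreeGroup X, r = v ^ q := ⟨1, r, (pow_one r).symm⟩
  have hb : ∀ q, (∃ v : FreeGroup X, r = v ^ q) → q ≤ r.norm := by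
    rintro q ⟨v, rfl⟩
    refine le_norm_pow v ?_ q
    rintro rfl
    exact hr (one_pow q)
  obtain ⟨q, ⟨v, hv⟩, hmax⟩ : ∃ q, (∃ v : FreeGroup X, r = v ^ q) ∧
      ∀ q', (∃ v : FreeGroup X, r = v ^ q') → q' ≤ q := by
    have h := Nat.findGreatest_spec (P := fun q => ∃ v : FreeGroup X, r = v ^ q)
      (hb 1 ⟨r, (pow_one r).symm⟩) ⟨r, (pow_one r).symm⟩
    exact ⟨_, h, fun q' hq' => Nat.le_findGreatest (hb q' hq') hq'⟩
  have hq : 1 ≤ q := hmax 1 ⟨r, (pow_one r).symm⟩
  refine ⟨v, q, hq, hv, fun u k hk huk => ?_⟩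
  have h1 := hmax (k * q) ⟨u, by rw [hv, huk, ← pow_mul]⟩
  nlinarith

end Pool.Agent.Lib.MagH
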